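import Pool.Agent.Helper3.FewP.Goals2

/-!
# FewPoints (MP_d3128a_ag), block STRIP: packet BLI
-/

set_option autoImplicit false

namespace Pool.Agent.Helper83.FewP

open Pool.Agent.Helper3.FewP
open scoped BigOperators

theorem t : G_BLI := by
  intro F κ ι ρ _ _ _ m p μ i0 pt hx hli
  rw [Fintype.linearIndependent_iff]
  intro w hw c
  have h1 := Fintype.linearIndependent_iff.1 (hli (i0 c)) (fun c' => w c'.1) ?_ ⟨c, rfl⟩
  · exact h1
  · funext ab
    obtain ⟨x, hx1, hx2⟩ := hx (i0 c) ab
    have h2 := congrFun hw x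
    rw [Finset.sum_apply] at h2 ⊢
    simp only [Pi.smul_apply, smul_eq_mul, Pi.zero_apply, hx1, hx2] at h2 ⊢
    have h3 : ∑ x, w x * (if i0 c = i0 x then vec F m (pt x) ab else 0)
        = ∑ x ∈ Finset.univ.filter (fun x => i0 x = i0 c), w x * vec F m (pt x) ab := by
      rw [Finset.sum_filter]
      refine Finset.sum_congr rfl fun x _ => ?_
      by_cases h : i0 x = i0 c
      · rw [if_pos h, if_pos h.symm]
      · rw [if_neg h, if_neg (Ne.symm h), mul_zero]
    rw [h3, Finset.sum_subtype (p := fun x => i0 x = i0 c) _ (by simp)] at h2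
    exact h2

end Pool.Agent.Helper83.FewP
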